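import Pool.Agent.U788.ES.Def
import Pool.Agent.U788.ES.Fin

/-!
# Escaping orbits on flat tori are slower than the square root of the time
-/

set_option autoImplicit false

open Set Filter Topology
open scoped RealInnerProductSpace

noncomputable section

namespace Pool.Agent.Results.MP_6acca1_an.NoSquareRootGrowth

open Pool.Agent.U788.ES

variable {E : Type} [NormedAddCommGroup E] [InnerProductSpace ℝ E] [FiniteDimensional ℝ E]

/-- the reversed potential -/
theorem rev_pot {n : ℕ} {b : Module.Basis (Fin n) ℝ E} {f : E × ℝ → ℝ} (hf : Pot b f) :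
    Pot b (fun q => f (q.1, -q.2)) where
  smooth := hf.smooth.comp (contDiff_fst.prodMk contDiff_snd.neg)
  perx := fun l hl x t => hf.perx l hl x (-t)
  pert := fun m x t => by
    have h := hf.pert (-m) x (-t)
    push_cast at h
    show f (x, -(t + m)) = f (x, -t)
    rw [← h]
    congr 2
    ring

theorem rev_orbit {f : E × ℝ → ℝ} {x v : ℝ → E} (ho : IsOrbit f x v) :
    IsOrbit (fun q => f (q.1, -q.2)) (fun t => x (-t)) (fun t => -v (-t)) where
  dx := fun t => by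
    have h := (ho.dx (-t)).scomp t (hasDerivAt_neg t)
    have h2 : HasDerivAt (fun t => x (-t)) ((-1 : ℝ) • v (-t)) t := h
    rwa [neg_smul, one_smul] at h2
  dv := fun t => by
    have h := ((ho.dv (-t)).scomp t (hasDerivAt_neg t)).neg
    have h2 : HasDerivAt (fun t => -v (-t)) (-((-1 : ℝ) • gradient (fun y => f (y, -t)) (x (-t)))) t := h
    rw [neg_smul, one_smul, neg_neg] at h2
    exact h2

/-- Let `f` be a `C¹` function on `E/Λ × ℝ/ℤ`, where `E/Λ` is a flat torus. Uniformly over all orbits of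
the Lagrangian `|v|²/2 + f(x,t)`, the change of `|v|²` in a long time interval is `o` of its length. In
particular the speed of every orbit is `o(√t)`. -/
theorem result {n : ℕ} (b : Module.Basis (Fin n) ℝ E) (f : E × ℝ → ℝ) (hf : Pot b f) :
    (∀ ε : ℝ, 0 < ε → ∃ T : ℝ, 0 < T ∧ ∀ x v : ℝ → E, IsOrbit f x v → ∀ s t : ℝ, s + T ≤ t →
      |‖v t‖ ^ 2 - ‖v s‖ ^ 2| ≤ ε * (t - s)) ∧
    ∀ x v : ℝ → E, IsOrbit f x v → Tendsto (fun t => ‖v t‖ / √t) atTop (𝓝 0) := by
  have h1 : ∀ ε : ℝ, 0 < ε → ∃ T : ℝ, 0 < T ∧ ∀ x v : ℝ → E, IsOrbit f x v → ∀ s t : ℝ, s + T ≤ t →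
      |‖v t‖ ^ 2 - ‖v s‖ ^ 2| ≤ ε * (t - s) := by
    intro ε hε
    obtain ⟨T1, hT1, h1⟩ := growth b f hf ε hε
    obtain ⟨T2, hT2, h2⟩ := growth b _ (rev_pot hf) ε hε
    refine ⟨max T1 T2, lt_max_of_lt_left hT1, fun x v ho s t hst => ?_⟩
    have k1 := h1 x v ho s t (by linarith [le_max_left T1 T2])
    have k2 := h2 _ _ (rev_orbit ho) (-t) (-s) (by linarith [le_max_right T1 T2])
    simp only [neg_neg, norm_neg] at k2
    rw [abs_le]
    constructor <;> linarith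
  refine ⟨h1, fun x v ho => ?_⟩
  rw [Metric.tendsto_atTop]
  intro δ hδ
  obtain ⟨T, hT, h2⟩ := h1 (δ ^ 2 / 4) (by positivity)
  refine ⟨max T (4 * ‖v 0‖ ^ 2 / δ ^ 2 + 1), fun t ht => ?_⟩
  have ht1 : T ≤ t := (le_max_left _ _).trans ht
  have ht2 : 4 * ‖v 0‖ ^ 2 / δ ^ 2 + 1 ≤ t := (le_max_right _ _).trans ht
  have ht0 : 0 < t := by
    have : 0 ≤ 4 * ‖v 0‖ ^ 2 / δ ^ 2 := by positivity
    linarith
  have h3 := (abs_le.1 (h2 x v ho 0 t (by linarith))).2
  have h4 : 4 * ‖v 0‖ ^ 2 ≤ t * δ ^ 2 := by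
    have : 4 * ‖v 0‖ ^ 2 / δ ^ 2 ≤ t := by linarith
    rwa [div_le_iff₀ (by positivity)] at this
  have h5 : ‖v t‖ ^ 2 < δ ^ 2 * t := by
    have : 0 < t * δ ^ 2 := by positivity
    nlinarith
  have h6 : ‖v t‖ < δ * √t := by
    refine lt_of_pow_lt_pow_left₀ 2 (by positivity) ?_
    rw [mul_pow, Real.sq_sqrt ht0.le]
    exact h5
  rw [Real.dist_eq, sub_zero, abs_of_nonneg (by positivity), div_lt_iff₀ (Real.sqrt_pos.2 ht0)]
  exact h6

end Pool.Agent.Results.MP_6acca1_an.NoSquareRootGrowth
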